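import Pool.Agent.helper41.G5.Spec

/-! # d2:5CC (MP_5823cb_al): it is enough to look at connected pairs (helper46) -/

set_option autoImplicit false

namespace DH5

open Finset

theorem CC_sqrt (p q r s : ℝ) (hp : 0 ≤ p) (hq : 0 ≤ q) (hr : 0 ≤ r) (hs : 0 ≤ s) :
    √(p * q) + √(r * s) ≤ √((p + r) * (q + s)) := by
  apply Real.le_sqrt_of_sq_le
  rw [Real.sqrt_mul hp, Real.sqrt_mul hr]
  have h1 := Real.sq_sqrt hp
  have h2 := Real.sq_sqrt hq
  have h3 := Real.sq_sqrt hr
  have h4 := Real.sq_sqrt hs
  set a := √p
  set b := √q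
  set c := √r
  set d := √s
  rw [← h1, ← h2, ← h3, ← h4]
  nlinarith [sq_nonneg (a * d - b * c)]

theorem CC : CC_stmt := by
  intro Z J _ _ a A β hβ haA hcon
  classical
  have main : ∀ n : ℕ, ∀ (S : Finset Z) (T : Finset J), #S + #T = n →
      |∑ z ∈ S, ∑ j ∈ T, a z j| ≤ β * √((#S : ℝ) * #T) := by
    intro n
    induction n using Nat.strong_induction_on with
    | _ n ih =>
      intro S T hn
      by_cases hc : Con A S T
      · exact hcon S T hc
      by_cases he : (S.disjSum T).Nonempty
      swap
      · have h0 : S = ∅ := by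
          by_contra h
          obtain ⟨z, hz⟩ := Finset.nonempty_iff_ne_empty.2 h
          exact he ⟨Sum.inl z, Finset.inl_mem_disjSum.2 hz⟩
        rw [h0]
        simp
      · set s : Set (Z ⊕ J) := ((S.disjSum T : Finset (Z ⊕ J)) : Set (Z ⊕ J)) with hsdef
        obtain ⟨x0, hx0⟩ := he
        haveI : Nonempty s := ⟨⟨x0, by exact_mod_cast hx0⟩⟩
        have hnp : ¬ ((bip A).induce s).Preconnected := fun h => hc { preconnected := h, nonempty := inferInstance }
        simp only [SimpleGraph.Preconnected, not_forall] at hnp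
        obtain ⟨u, v, huv⟩ := hnp
        set C : Z ⊕ J → Prop := fun x => ∃ h : x ∈ s, ((bip A).induce s).Reachable u ⟨x, h⟩ with hC
        have hstep : ∀ (x y : Z ⊕ J), C x → y ∈ s → (bip A).Adj x y → C y := by
          rintro x y ⟨hx, hr⟩ hy hadj
          refine ⟨hy, hr.trans (SimpleGraph.Adj.reachable ?_)⟩
          exact hadj
        have hadj : ∀ z j, A z j → (bip A).Adj (Sum.inl z) (Sum.inr j) := by
          intro z j h
          unfold bip
          rw [SimpleGraph.fromRel_adj]
          exact ⟨by simp, Or.inl ⟨z, j, rfl, rfl, h⟩⟩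
        have hz1 : ∀ z ∈ S.filter (fun z => C (Sum.inl z)), ∑ j ∈ T, a z j = ∑ j ∈ T.filter (fun j => C (Sum.inr j)), a z j := by
          intro z hz
          rw [Finset.mem_filter] at hz
          rw [← Finset.sum_filter_add_sum_filter_not T (fun j => C (Sum.inr j)) (fun j => a z j)]
          rw [add_eq_left]
          apply Finset.sum_eq_zero
          intro j hj
          rw [Finset.mem_filter] at hj
          by_contra hne
          exact hj.2 (hstep _ _ hz.2 (by rw [hsdef]; simpa using hj.1) (hadj z j (haA z j hne)))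
        have hz2 : ∀ z ∈ S.filter (fun z => ¬ C (Sum.inl z)), ∑ j ∈ T, a z j = ∑ j ∈ T.filter (fun j => ¬ C (Sum.inr j)), a z j := by
          intro z hz
          rw [Finset.mem_filter] at hz
          rw [← Finset.sum_filter_add_sum_filter_not T (fun j => C (Sum.inr j)) (fun j => a z j)]
          rw [add_eq_right]
          apply Finset.sum_eq_zero
          intro j hj
          rw [Finset.mem_filter] at hj
          by_contra hne
          exact hz.2 (hstep _ _ hj.2 (by rw [hsdef]; simpa using hz.1) (hadj z j (haA z j hne)).symm)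
        have hsum : ∑ z ∈ S, ∑ j ∈ T, a z j = (∑ z ∈ S.filter (fun z => C (Sum.inl z)), ∑ j ∈ T.filter (fun j => C (Sum.inr j)), a z j) +
            ∑ z ∈ S.filter (fun z => ¬ C (Sum.inl z)), ∑ j ∈ T.filter (fun j => ¬ C (Sum.inr j)), a z j := by
          rw [← Finset.sum_filter_add_sum_filter_not S (fun z => C (Sum.inl z)) (fun z => ∑ j ∈ T, a z j)]
          rw [Finset.sum_congr rfl hz1, Finset.sum_congr rfl hz2]
        have hcS : #(S.filter (fun z => C (Sum.inl z))) + #(S.filter (fun z => ¬ C (Sum.inl z))) = #S :=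
          Finset.card_filter_add_card_filter_not _
        have hcT : #(T.filter (fun j => C (Sum.inr j))) + #(T.filter (fun j => ¬ C (Sum.inr j))) = #T :=
          Finset.card_filter_add_card_filter_not _
        have hu : 0 < #(S.filter (fun z => C (Sum.inl z))) + #(T.filter (fun j => C (Sum.inr j))) := by
          have hCu : C (u : Z ⊕ J) := ⟨u.2, SimpleGraph.Reachable.refl _⟩
          have hum : (u : Z ⊕ J) ∈ S.disjSum T := by exact_mod_cast u.2
          rcases hu' : (u : Z ⊕ J) with z | j
          · rw [hu'] at hCu hum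
            have : z ∈ S.filter (fun z => C (Sum.inl z)) := Finset.mem_filter.2 ⟨Finset.inl_mem_disjSum.1 hum, hCu⟩
            have := Finset.card_pos.2 ⟨z, this⟩
            omega
          · rw [hu'] at hCu hum
            have : j ∈ T.filter (fun j => C (Sum.inr j)) := Finset.mem_filter.2 ⟨Finset.inr_mem_disjSum.1 hum, hCu⟩
            have := Finset.card_pos.2 ⟨j, this⟩
            omega
        have hv : 0 < #(S.filter (fun z => ¬ C (Sum.inl z))) + #(T.filter (fun j => ¬ C (Sum.inr j))) := by
          have hCv : ¬ C (v : Z ⊕ J) := fun ⟨_, h⟩ => huv h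
          have hvm : (v : Z ⊕ J) ∈ S.disjSum T := by exact_mod_cast v.2
          rcases hv' : (v : Z ⊕ J) with z | j
          · rw [hv'] at hCv hvm
            have : z ∈ S.filter (fun z => ¬ C (Sum.inl z)) := Finset.mem_filter.2 ⟨Finset.inl_mem_disjSum.1 hvm, hCv⟩
            have := Finset.card_pos.2 ⟨z, this⟩
            omega
          · rw [hv'] at hCv hvm
            have : j ∈ T.filter (fun j => ¬ C (Sum.inr j)) := Finset.mem_filter.2 ⟨Finset.inr_mem_disjSum.1 hvm, hCv⟩
            have := Finset.card_pos.2 ⟨j, this⟩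
            omega
        have i1 := ih (#(S.filter (fun z => C (Sum.inl z))) + #(T.filter (fun j => C (Sum.inr j)))) (by omega) _ _ rfl
        have i2 := ih (#(S.filter (fun z => ¬ C (Sum.inl z))) + #(T.filter (fun j => ¬ C (Sum.inr j)))) (by omega) _ _ rfl
        have e1 : (#S : ℝ) = (#(S.filter (fun z => C (Sum.inl z))) : ℝ) + (#(S.filter (fun z => ¬ C (Sum.inl z))) : ℝ) := by
          exact_mod_cast hcS.symm
        have e2 : (#T : ℝ) = (#(T.filter (fun j => C (Sum.inr j))) : ℝ) + (#(T.filter (fun j => ¬ C (Sum.inr j))) : ℝ) := by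
          exact_mod_cast hcT.symm
        rw [hsum, e1, e2]
        refine (abs_add_le _ _).trans ((add_le_add i1 i2).trans ?_)
        rw [← mul_add]
        exact mul_le_mul_of_nonneg_left (CC_sqrt _ _ _ _ (Nat.cast_nonneg _) (Nat.cast_nonneg _) (Nat.cast_nonneg _) (Nat.cast_nonneg _)) hβ
  intro S T
  exact main _ S T rfl

end DH5
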