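import Pool.Agent.helper41.G5.SpecG

/-! # d2:gSCT (MP_5823cb_al): small sets have few touchings (helper46) -/

set_option autoImplicit false

open Filter Topology MeasureTheory

namespace Pool.Agent.helper90.DH

open Pool.Agent.helper64.D2

theorem gSCT_mem (u : ℕ) (k : ℤ) (x : ℝ) : x ∈ cell u k ↔ (k : ℝ) ≤ x * 2 ^ u ∧ x * 2 ^ u < (k : ℝ) + 1 := by
  have h : (0 : ℝ) < 2 ^ u := by positivity
  unfold cell
  rw [Set.mem_Ico, div_le_iff₀ h, lt_div_iff₀ h]

theorem gSCT_NL (C : ℝ → ℝ) (hC : NL C) (x y : ℝ) : |C x - C y| ≤ 11 / 10 * |x - y| ∧ 9 / 10 * |x - y| ≤ |C x - C y| := by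
  rcases le_total x y with h | h
  · obtain ⟨h1, h2⟩ := hC x y h
    rw [abs_sub_comm (C x), abs_sub_comm x, abs_of_nonneg (by linarith : 0 ≤ y - x), abs_of_nonneg (by linarith : 0 ≤ C y - C x)]
    exact ⟨h2, h1⟩
  · obtain ⟨h1, h2⟩ := hC y x h
    rw [abs_of_nonneg (by linarith : 0 ≤ x - y), abs_of_nonneg (by linarith : 0 ≤ C x - C y)]
    exact ⟨h2, h1⟩

theorem gSCT_F1 {ι : Type} (u p N : ℕ) (C : ι → ℕ → ℝ → ℝ) (hNL : ∀ i o, NL (C i o))
    (hC : ∀ i, ∀ o < N, ∀ o' < N, ∀ x, |C i o x - C i o' x| ≤ 1 / (20 * 2 ^ u)) (i : ι) (z : Fin (2 ^ (u - 1)))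
    (j j' : Fin (2 ^ u)) (h : tch u p N C i z j) (h' : tch u p N C i z j') : (j : ℕ) ≤ (j' : ℕ) + 2 := by
  obtain ⟨_, x, hx, o, ho, hy⟩ := h
  obtain ⟨_, x', hx', o', ho', hy'⟩ := h'
  rw [gSCT_mem] at hx hy hx' hy'
  have hH : (0 : ℝ) < 2 ^ u := by positivity
  have e1 := (gSCT_NL _ (hNL i o) x x').1
  have e2 := hC i o ho o' ho' x'
  have e3 : |x - x'| * 2 ^ u ≤ 1 := by
    rw [← abs_of_pos hH, ← abs_mul, abs_le]
    rw [sub_mul]
    constructor <;> linarith [hx.1, hx.2, hx'.1, hx'.2]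
  have e4 : |C i o x - C i o' x'| * 2 ^ u ≤ 11 / 10 + 1 / 20 := by
    have e5 : |C i o x - C i o' x'| ≤ 11 / 10 * |x - x'| + 1 / (20 * 2 ^ u) := by
      have := abs_sub_le (C i o x) (C i o x') (C i o' x')
      linarith
    have e6 := mul_le_mul_of_nonneg_right e5 hH.le
    have e7 : (11 / 10 * |x - x'| + 1 / (20 * 2 ^ u)) * 2 ^ u = 11 / 10 * (|x - x'| * 2 ^ u) + 1 / 20 := by
      field_simp
    rw [e7] at e6
    linarith
  have e8 : (C i o x - C i o' x') * 2 ^ u ≤ 11 / 10 + 1 / 20 :=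
    (mul_le_mul_of_nonneg_right (le_abs_self _) hH.le).trans e4
  rw [sub_mul] at e8
  by_contra hcon
  push Not at hcon
  have h9 : ((j' : ℕ) : ℝ) + 3 ≤ ((j : ℕ) : ℝ) := by exact_mod_cast hcon
  have h10 := hy.1
  have h11 := hy'.2
  push_cast at h10 h11
  linarith

theorem gSCT_F2 {ι : Type} (u p N : ℕ) (C : ι → ℕ → ℝ → ℝ) (hNL : ∀ i o, NL (C i o))
    (hC : ∀ i, ∀ o < N, ∀ o' < N, ∀ x, |C i o x - C i o' x| ≤ 1 / (20 * 2 ^ u)) (i : ι) (z z' : Fin (2 ^ (u - 1)))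
    (j : Fin (2 ^ u)) (h : tch u p N C i z j) (h' : tch u p N C i z' j) : (z : ℕ) ≤ (z' : ℕ) + 1 := by
  obtain ⟨_, x, hx, o, ho, hy⟩ := h
  obtain ⟨_, x', hx', o', ho', hy'⟩ := h'
  rw [gSCT_mem] at hx hy hx' hy'
  have hH : (0 : ℝ) < 2 ^ u := by positivity
  have e1 := (gSCT_NL _ (hNL i o) x x').2
  have e2 := hC i o' ho' o ho x'
  have e3 : |C i o x - C i o' x'| * 2 ^ u ≤ 1 := by
    rw [← abs_of_pos hH, ← abs_mul, abs_le]
    rw [sub_mul]
    constructor <;> linarith [hy.1, hy.2, hy'.1, hy'.2]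
  have e4 : 9 / 10 * |x - x'| * 2 ^ u ≤ 1 + 1 / 20 := by
    have e5 : 9 / 10 * |x - x'| ≤ |C i o x - C i o' x'| + 1 / (20 * 2 ^ u) := by
      have := abs_sub_le (C i o x) (C i o' x') (C i o x')
      linarith
    have e6 := mul_le_mul_of_nonneg_right e5 hH.le
    have e7 : (|C i o x - C i o' x'| + 1 / (20 * 2 ^ u)) * 2 ^ u = |C i o x - C i o' x'| * 2 ^ u + 1 / 20 := by
      field_simp
    rw [e7] at e6
    linarith
  have e8 : 9 / 10 * ((x - x') * 2 ^ u) ≤ 1 + 1 / 20 := by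
    have := mul_le_mul_of_nonneg_right (le_abs_self (x - x')) hH.le
    linarith
  rw [sub_mul] at e8
  by_contra hcon
  push Not at hcon
  have h9 : ((z' : ℕ) : ℝ) + 2 ≤ ((z : ℕ) : ℝ) := by exact_mod_cast hcon
  have h10 := hx.1
  have h11 := hx'.2
  push_cast at h10 h11
  linarith

/-- the centre is replaced by `1/2` when it is not in `[1/6,5/6]`. -/
noncomputable def gSCT_cl (r : ℝ) : ℝ := if 1 / 6 ≤ r ∧ r ≤ 5 / 6 then r else 1 / 2

theorem gSCT_cl_mem (r : ℝ) : gSCT_cl r ∈ Set.Icc (1 / 6 : ℝ) (5 / 6) := by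
  unfold gSCT_cl
  split_ifs with h
  · exact h
  · constructor <;> norm_num

theorem gSCT_near (hNIB : gNIB_stmt) (u p N : ℕ) (c : ℕ → DD) (L : Finset ℕ) (C : L → ℕ → ℝ → ℝ) (hu : 7 ≤ u)
    (hSz : ∀ i, Sz (c i) (1 / 100)) (hCc : ∀ i : L, ∀ o < N, ∀ x, |C i o x - ev (c i) x| ≤ 1 / (40 * 2 ^ u))
    (i : L) (z : Fin (2 ^ (u - 1))) (j : Fin (2 ^ u)) (h : tch u p N C i z j) :
    |ev (c i) (gSCT_cl ((2 * (z : ℕ) + p + 1 / 2 : ℝ) / 2 ^ u)) - gSCT_cl (((j : ℕ) + 1 / 2 : ℝ) / 2 ^ u)| ≤ 4 / 2 ^ u := by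
  obtain ⟨⟨w, hw, hw2⟩, x, hx, o, ho, hy⟩ := h
  rw [gSCT_mem] at hw hx hy
  push_cast at hw hx hy
  obtain ⟨n1, _, n3⟩ := hNIB (c i) (1 / 100) (by norm_num) (hSz i)
  have hH : (0 : ℝ) < 2 ^ u := by positivity
  have hH2 : (128 : ℝ) ≤ 2 ^ u := by
    calc (128 : ℝ) = 2 ^ 7 := by norm_num
      _ ≤ 2 ^ u := pow_le_pow_right₀ (by norm_num) hu
  set H : ℝ := 2 ^ u with hHdef
  have hHi : 1 / H ≤ 1 / 128 := one_div_le_one_div_of_le (by norm_num) hH2
  have hHp : 0 < 1 / H := by positivity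
  set a : ℝ := (2 * (z : ℕ) + p + 1 / 2 : ℝ) / H with ha
  set b : ℝ := ((j : ℕ) + 1 / 2 : ℝ) / H with hb
  have haH : a * H = 2 * (z : ℕ) + p + 1 / 2 := by rw [ha]; field_simp
  have hbH : b * H = (j : ℕ) + 1 / 2 := by rw [hb]; field_simp
  have key : ∀ r r' t : ℝ, |r * H - r' * H| ≤ t → |r - r'| ≤ t * (1 / H) := by
    intro r r' t hrt
    rw [← sub_mul, abs_mul, abs_of_pos hH] at hrt
    rw [mul_one_div, le_div_iff₀ hH]
    exact hrt
  have k1 : |x - a| ≤ 1 / 2 * (1 / H) := key _ _ _ (by rw [haH, abs_le]; constructor <;> linarith [hx.1, hx.2])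
  have k2 : |C i o x - b| ≤ 1 / 2 * (1 / H) := key _ _ _ (by rw [hbH, abs_le]; constructor <;> linarith [hy.1, hy.2])
  have k3 : |w - b| ≤ 1 / 2 * (1 / H) := key _ _ _ (by rw [hbH, abs_le]; constructor <;> linarith [hw.1, hw.2])
  have k4 : |C i o x - ev (c i) x| ≤ 1 / 40 * (1 / H) := by
    have := hCc i o ho x
    have e : 1 / (40 * H) = 1 / 40 * (1 / H) := by field_simp
    rw [e] at this
    exact this
  have k5 := n1 x
  have k6 := n3 a x
  rw [abs_le] at k1 k2 k3 k4 k5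
  have hb1 : 1 / 6 ≤ b ∧ b ≤ 5 / 6 := by
    constructor <;> linarith [hw2.1, hw2.2]
  have ha1 : 1 / 6 ≤ a ∧ a ≤ 5 / 6 := by
    constructor <;> linarith [hw2.1, hw2.2]
  have e1 : gSCT_cl a = a := by unfold gSCT_cl; rw [if_pos ha1]
  have e2 : gSCT_cl b = b := by unfold gSCT_cl; rw [if_pos hb1]
  rw [e1, e2]
  have k7 : |a - x| ≤ 1 / 2 * (1 / H) := by
    rw [abs_le]
    constructor <;> linarith
  have k8 : |ev (c i) a - ev (c i) x - (a - x)| ≤ 1 / 100 * (1 / 2 * (1 / H)) :=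
    k6.trans (mul_le_mul_of_nonneg_left k7 (by norm_num))
  rw [abs_le] at k7 k8
  have e3 : 4 / H = 4 * (1 / H) := by field_simp
  rw [e3, abs_le]
  constructor <;> linarith

theorem gSCT_b (hNIB : gNIB_stmt) (q u p N : ℕ) (c : ℕ → DD) (L : Finset ℕ) (C : L → ℕ → ℝ → ℝ) (k th : ℝ) (hu : 7 ≤ u)
    (hL : L ⊆ Finset.range q) (hSz : ∀ i, Sz (c i) (1 / 100)) (hNL : ∀ i o, NL (C i o))
    (hCc : ∀ i : L, ∀ o < N, ∀ x, |C i o x - ev (c i) x| ≤ 1 / (40 * 2 ^ u))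
    (hC : ∀ i, ∀ o < N, ∀ o' < N, ∀ x, |C i o x - C i o' x| ≤ 1 / (20 * 2 ^ u))
    (hSPR : ∀ k' : ℕ, (k' : ℝ) < k → SPR q c u k' th 4) (S : Finset (Fin (2 ^ (u - 1)))) (T : Finset (Fin (2 ^ u)))
    (hk : (S.card + T.card : ℝ) < k) (r₁ r₂ : ℕ) (X : Finset (L × Fin (2 ^ (u - 1)) × Fin (2 ^ u)))
    (hX : ∀ e ∈ X, e.2.1 ∈ S ∧ e.2.2 ∈ T ∧ tch u p N C e.1 e.2.1 e.2.2)
    (hr : ∀ e ∈ X, (e.2.1 : ℕ) % 3 = r₁ ∧ (e.2.2 : ℕ) % 3 = r₂) : (X.card : ℝ) ≤ th * q * (S.card + T.card : ℝ) := by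
  classical
  have hcard : Fintype.card (S ⊕ T) = S.card + T.card := by
    rw [Fintype.card_sum, Fintype.card_coe, Fintype.card_coe]
  set eA : (S ⊕ T) ≃ Fin (S.card + T.card) := Fintype.equivFinOfCardEq hcard with heA
  set val : S ⊕ T → ℝ := Sum.elim (fun z => gSCT_cl ((2 * ((z : Fin (2 ^ (u - 1))) : ℕ) + p + 1 / 2 : ℝ) / 2 ^ u))
    (fun j => gSCT_cl ((((j : Fin (2 ^ u)) : ℕ) + 1 / 2 : ℝ) / 2 ^ u)) with hval
  have hvm : ∀ x, val x ∈ Set.Icc (1 / 6 : ℝ) (5 / 6) := by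
    intro x
    rcases x with z | j
    · exact gSCT_cl_mem _
    · exact gSCT_cl_mem _
  set pt : ℕ → ℝ := fun a => if h : a < S.card + T.card then val (eA.symm ⟨a, h⟩) else 1 / 2 with hpt
  set nS : Fin (2 ^ (u - 1)) → ℕ := fun z => if h : z ∈ S then (eA (Sum.inl ⟨z, h⟩) : ℕ) else 0 with hnS
  set nT : Fin (2 ^ u) → ℕ := fun j => if h : j ∈ T then (eA (Sum.inr ⟨j, h⟩) : ℕ) else 0 with hnT
  have hnS1 : ∀ z ∈ S, nS z < S.card + T.card ∧ pt (nS z) = gSCT_cl ((2 * (z : ℕ) + p + 1 / 2 : ℝ) / 2 ^ u) := by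
    intro z hz
    have e1 : nS z = (eA (Sum.inl ⟨z, hz⟩) : ℕ) := by simp only [hnS, hz, dif_pos]
    have h1 : nS z < S.card + T.card := by
      rw [e1]
      exact (eA (Sum.inl ⟨z, hz⟩)).isLt
    refine ⟨h1, ?_⟩
    simp only [hpt]
    rw [dif_pos h1]
    have e2 : (⟨nS z, h1⟩ : Fin (S.card + T.card)) = eA (Sum.inl ⟨z, hz⟩) := Fin.ext e1
    rw [e2, Equiv.symm_apply_apply]
    rfl
  have hnT1 : ∀ j ∈ T, nT j < S.card + T.card ∧ pt (nT j) = gSCT_cl (((j : ℕ) + 1 / 2 : ℝ) / 2 ^ u) := by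
    intro z hz
    have e1 : nT z = (eA (Sum.inr ⟨z, hz⟩) : ℕ) := by simp only [hnT, hz, dif_pos]
    have h1 : nT z < S.card + T.card := by
      rw [e1]
      exact (eA (Sum.inr ⟨z, hz⟩)).isLt
    refine ⟨h1, ?_⟩
    simp only [hpt]
    rw [dif_pos h1]
    have e2 : (⟨nT z, h1⟩ : Fin (S.card + T.card)) = eA (Sum.inr ⟨z, hz⟩) := Fin.ext e1
    rw [e2, Equiv.symm_apply_apply]
    rfl
  have hnSi : ∀ z ∈ S, ∀ z' ∈ S, nS z = nS z' → z = z' := by
    intro z hz z' hz' he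
    simp only [hnS, hz, hz', dif_pos] at he
    have := eA.injective (Fin.ext he)
    simpa using this
  have hnTi : ∀ z ∈ T, ∀ z' ∈ T, nT z = nT z' → z = z' := by
    intro z hz z' hz' he
    simp only [hnT, hz, hz', dif_pos] at he
    have := eA.injective (Fin.ext he)
    simpa using this
  have hk' : (((S.card + T.card : ℕ)) : ℝ) < k := by push_cast; exact hk
  set g : L × Fin (2 ^ (u - 1)) × Fin (2 ^ u) → ℕ × ℕ × ℕ := fun e => ((e.1 : ℕ), nS e.2.1, nT e.2.2) with hg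
  have hgi : Set.InjOn g X := by
    rintro ⟨i, z, j⟩ he ⟨i', z', j'⟩ he' hee
    have h1 := hX _ he
    have h2 := hX _ he'
    simp only [hg, Prod.mk.injEq] at hee
    obtain ⟨a1, a2, a3⟩ := hee
    have b1 : i = i' := Subtype.ext a1
    have b2 : z = z' := hnSi z h1.1 z' h2.1 a2
    have b3 : j = j' := hnTi j h1.2.1 j' h2.2.1 a3
    rw [b1, b2, b3]
  have hmain := hSPR (S.card + T.card) hk' pt (X.image g) (by
      intro a ha
      simp only [hpt]
      rw [dif_pos ha]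
      exact hvm _) (by
      intro e he
      rw [Finset.mem_image] at he
      obtain ⟨⟨i, z, j⟩, hm, rfl⟩ := he
      obtain ⟨h1, h2, h3⟩ := hX _ hm
      simp only at h1 h2 h3
      refine ⟨Finset.mem_range.1 (hL i.2), (hnS1 z h1).1, (hnT1 j h2).1, ?_⟩
      show |ev (c i) (pt (nS z)) - pt (nT j)| ≤ 4 / 2 ^ u
      rw [(hnS1 z h1).2, (hnT1 j h2).2]
      exact gSCT_near hNIB u p N c L C hu hSz hCc i z j h3) (by
      intro e he e' he' h1 h2
      rw [Finset.mem_image] at he he'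
      obtain ⟨⟨i, z, j⟩, hm, rfl⟩ := he
      obtain ⟨⟨i', z', j'⟩, hm', rfl⟩ := he'
      have a1 := hX _ hm
      have a2 := hX _ hm'
      have a3 := hr _ hm
      have a4 := hr _ hm'
      simp only at a1 a2 a3 a4
      simp only [hg] at h1 h2 ⊢
      have b1 : i = i' := Subtype.ext h1
      subst b1
      rcases h2 with h2 | h2
      · have b2 : z = z' := hnSi z a1.1 z' a2.1 h2
        subst b2
        have c1 := gSCT_F1 u p N C hNL hC i z j j' a1.2.2 a2.2.2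
        have c2 := gSCT_F1 u p N C hNL hC i z j' j a2.2.2 a1.2.2
        have b3 : j = j' := Fin.ext (by omega)
        rw [b3]
      · have b3 : j = j' := hnTi j a1.2.1 j' a2.2.1 h2
        subst b3
        have c1 := gSCT_F2 u p N C hNL hC i z z' j a1.2.2 a2.2.2
        have c2 := gSCT_F2 u p N C hNL hC i z' z j a2.2.2 a1.2.2
        have b2 : z = z' := Fin.ext (by omega)
        rw [b2])
  rw [Finset.card_image_of_injOn hgi] at hmain
  push_cast at hmain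
  exact hmain

theorem gSCT (hCNT : gCNT_stmt) (hNIB : gNIB_stmt) : gSCT_stmt := by
  intro q u p N c L C β k th hu _hp hL hLne hβ hth hnum hSz hNL hCc hSPR S T hk
  classical
  have hH : (0 : ℝ) < 2 ^ u := by positivity
  have hC : ∀ i, ∀ o < N, ∀ o' < N, ∀ x, |C i o x - C i o' x| ≤ 1 / (20 * 2 ^ u) := by
    intro i o ho o' ho' x
    have h1 := hCc i o ho x
    have h2 := hCc i o' ho' x
    have h3 := abs_sub_le (C i o x) (ev (c i) x) (C i o' x)
    rw [abs_sub_comm (ev (c i) x) (C i o' x)] at h3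
    have e : (1 : ℝ) / (20 * 2 ^ u) = 1 / (40 * 2 ^ u) + 1 / (40 * 2 ^ u) := by
      field_simp
      norm_num
    linarith
  obtain ⟨hc1, hc2⟩ := hCNT L u p N C hNL hC
  set X : Finset (L × Fin (2 ^ (u - 1)) × Fin (2 ^ u)) :=
    Finset.univ.filter (fun e => e.2.1 ∈ S ∧ e.2.2 ∈ T ∧ tch u p N C e.1 e.2.1 e.2.2) with hXdef
  have hXm : ∀ e, e ∈ X ↔ e.2.1 ∈ S ∧ e.2.2 ∈ T ∧ tch u p N C e.1 e.2.1 e.2.2 := by
    intro e
    rw [hXdef, Finset.mem_filter]
    simp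
  have hset : {e : L × Fin (2 ^ (u - 1)) × Fin (2 ^ u) | e.2.1 ∈ S ∧ e.2.2 ∈ T ∧ tch u p N C e.1 e.2.1 e.2.2} = (X : Set _) := by
    ext e
    rw [Finset.mem_coe, hXm]
    rfl
  rw [hset, Set.ncard_coe_finset]
  -- (a)
  have ha1 : X.card ≤ 3 * (L.card * S.card) := by
    have h1 := Finset.card_le_mul_card_image_of_maps_to (s := X) (t := (Finset.univ : Finset L) ×ˢ S)
      (f := fun e => (e.1, e.2.1)) (fun e he => by
        rw [Finset.mem_product]
        exact ⟨Finset.mem_univ _, ((hXm e).1 he).1⟩) 3 (by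
        rintro ⟨i, z⟩ _
        rw [← Finset.card_image_of_injOn (f := fun e : L × Fin (2 ^ (u - 1)) × Fin (2 ^ u) => e.2.2)]
        · refine le_trans ?_ (hc1 i z)
          rw [← Set.ncard_coe_finset]
          apply Set.ncard_le_ncard _ (Set.toFinite _)
          intro j hj
          rw [Finset.mem_coe, Finset.mem_image] at hj
          obtain ⟨e, he, rfl⟩ := hj
          rw [Finset.mem_filter, hXm] at he
          obtain ⟨⟨_, _, h3⟩, h4⟩ := he
          rw [Prod.mk.injEq] at h4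
          show tch u p N C i z e.2.2
          rw [← h4.1, ← h4.2]
          exact h3
        · rintro ⟨i1, z1, j1⟩ h1 ⟨i2, z2, j2⟩ h2 h3
          rw [Finset.mem_coe, Finset.mem_filter] at h1 h2
          have h4 := h1.2
          have h5 := h2.2
          simp only [Prod.mk.injEq] at h3 h4 h5 ⊢
          exact ⟨h4.1.trans h5.1.symm, h4.2.trans h5.2.symm, h3⟩)
    rw [Finset.card_product, Finset.card_univ, Fintype.card_coe] at h1
    exact h1
  have ha2 : X.card ≤ 3 * (L.card * T.card) := by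
    have h1 := Finset.card_le_mul_card_image_of_maps_to (s := X) (t := (Finset.univ : Finset L) ×ˢ T)
      (f := fun e => (e.1, e.2.2)) (fun e he => by
        rw [Finset.mem_product]
        exact ⟨Finset.mem_univ _, ((hXm e).1 he).2.1⟩) 3 (by
        rintro ⟨i, j⟩ _
        rw [← Finset.card_image_of_injOn (f := fun e : L × Fin (2 ^ (u - 1)) × Fin (2 ^ u) => e.2.1)]
        · refine le_trans ?_ (hc2 i j)
          rw [← Set.ncard_coe_finset]
          apply Set.ncard_le_ncard _ (Set.toFinite _)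
          intro z hz
          rw [Finset.mem_coe, Finset.mem_image] at hz
          obtain ⟨e, he, rfl⟩ := hz
          rw [Finset.mem_filter, hXm] at he
          obtain ⟨⟨_, _, h3⟩, h4⟩ := he
          rw [Prod.mk.injEq] at h4
          show tch u p N C i e.2.1 j
          rw [← h4.1, ← h4.2]
          exact h3
        · rintro ⟨i1, z1, j1⟩ h1 ⟨i2, z2, j2⟩ h2 h3
          rw [Finset.mem_coe, Finset.mem_filter] at h1 h2
          have h4 := h1.2
          have h5 := h2.2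
          simp only [Prod.mk.injEq] at h3 h4 h5 ⊢
          exact ⟨h4.1.trans h5.1.symm, h3, h4.2.trans h5.2.symm⟩)
    rw [Finset.card_product, Finset.card_univ, Fintype.card_coe] at h1
    exact h1
  -- (b)
  have hb : (X.card : ℝ) ≤ 9 * (th * q * (S.card + T.card : ℝ)) := by
    have h1 := Finset.card_eq_sum_card_fiberwise (s := X) (t := Finset.range 3 ×ˢ Finset.range 3)
      (f := fun e => ((e.2.1 : ℕ) % 3, (e.2.2 : ℕ) % 3)) (fun e _ => by
        rw [Finset.mem_coe, Finset.mem_product, Finset.mem_range, Finset.mem_range]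
        exact ⟨Nat.mod_lt _ (by norm_num), Nat.mod_lt _ (by norm_num)⟩)
    rw [h1]
    push_cast
    have h2 : ∀ b ∈ Finset.range 3 ×ˢ Finset.range 3,
        ((X.filter (fun e => ((e.2.1 : ℕ) % 3, (e.2.2 : ℕ) % 3) = b)).card : ℝ) ≤ th * q * (S.card + T.card : ℝ) := by
      rintro ⟨r₁, r₂⟩ _
      apply gSCT_b hNIB q u p N c L C k th hu hL hSz hNL hCc hC hSPR S T hk r₁ r₂
      · intro e he
        rw [Finset.mem_filter] at he
        exact (hXm e).1 he.1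
      · intro e he
        rw [Finset.mem_filter, Prod.mk.injEq] at he
        exact he.2
    refine (Finset.sum_le_card_nsmul _ _ _ h2).trans (le_of_eq ?_)
    rw [Finset.card_product, Finset.card_range]
    simp
  -- (c)
  have hLc : Fintype.card L = L.card := Fintype.card_coe L
  rw [hLc]
  have a1 : (X.card : ℝ) ≤ 3 * ((L.card : ℝ) * (S.card : ℝ)) := by exact_mod_cast ha1
  have a2 : (X.card : ℝ) ≤ 3 * ((L.card : ℝ) * (T.card : ℝ)) := by exact_mod_cast ha2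
  set n : ℝ := (X.card : ℝ) with hn
  set s : ℝ := (S.card : ℝ) with hs
  set t : ℝ := (T.card : ℝ) with ht
  set ℓ : ℝ := (L.card : ℝ) with hℓ
  have hs0 : 0 ≤ s := Nat.cast_nonneg _
  have ht0 : 0 ≤ t := Nat.cast_nonneg _
  have hℓ0 : 0 ≤ ℓ := Nat.cast_nonneg _
  have hn0 : 0 ≤ n := Nat.cast_nonneg _
  have hq0 : (0 : ℝ) ≤ q := Nat.cast_nonneg _
  have hsq : n ^ 2 ≤ (β * ℓ) ^ 2 * (s * t) := by
    have hx : 0 ≤ ℓ * (s * t) := by positivity
    have h5 : 54 * th * q * (ℓ * (s * t)) ≤ β ^ 2 * ℓ * (ℓ * (s * t)) := mul_le_mul_of_nonneg_right hnum hx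
    have hthq : 0 ≤ th * q := mul_nonneg hth hq0
    have hgen : ∀ m M : ℝ, 0 ≤ m → m ≤ M → n ≤ 3 * (ℓ * m) → n ≤ 9 * (th * q * (m + M)) →
        n ^ 2 ≤ 54 * th * q * (ℓ * (m * M)) := by
      intro m M hm hmM h1 h2
      have hM : 0 ≤ M := hm.trans hmM
      have h3 : n ≤ 9 * (th * q * (2 * M)) := by
        refine h2.trans ?_
        have : th * q * (m + M) ≤ th * q * (2 * M) := mul_le_mul_of_nonneg_left (by linarith) hthq
        linarith
      calc n ^ 2 = n * n := by ring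
        _ ≤ (3 * (ℓ * m)) * (9 * (th * q * (2 * M))) := mul_le_mul h1 h3 hn0 (by positivity)
        _ = 54 * th * q * (ℓ * (m * M)) := by ring
    rcases le_total s t with h | h
    · have := hgen s t hs0 h a1 hb
      calc n ^ 2 ≤ 54 * th * q * (ℓ * (s * t)) := this
        _ ≤ β ^ 2 * ℓ * (ℓ * (s * t)) := h5
        _ = (β * ℓ) ^ 2 * (s * t) := by ring
    · have hb' : n ≤ 9 * (th * q * (t + s)) := by rw [add_comm t s]; exact hb
      have := hgen t s ht0 h a2 hb'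
      calc n ^ 2 ≤ 54 * th * q * (ℓ * (t * s)) := this
        _ = 54 * th * q * (ℓ * (s * t)) := by ring
        _ ≤ β ^ 2 * ℓ * (ℓ * (s * t)) := h5
        _ = (β * ℓ) ^ 2 * (s * t) := by ring
  have h6 := Real.le_sqrt_of_sq_le hsq
  rw [Real.sqrt_mul (sq_nonneg _), Real.sqrt_sq (by positivity)] at h6
  exact h6

end Pool.Agent.helper90.DH
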